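import Pool.Agent.TH729.Gr.NonSq

/-!
# Existential coding of graphs in fields of characteristic zero

There are three polynomials `P`, `Q`, `R` with rational coefficients such that every graph (of
any cardinality, directed, with loops allowed) has an existential coding by them in a field of
characteristic zero.
-/

set_option autoImplicit false

namespace Pool.Agent.Results.MP_7de982_lc.GraphCoding

open MvPolynomial Pool.Agent.TH729.Gr

/-- the set of first coordinates of the points of the curve `P = 0` over `K` -/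
def SP (K : Type) [Field K] [Algebra ℚ K] (P : MvPolynomial (Fin 2) ℚ) : Set K :=
  {a | ∃ b : K, aeval ![a, b] P = 0}

/-- the polynomial `(t² - f(x)) (t² - 2 f(x))` -/
noncomputable def PP : MvPolynomial (Fin 2) ℚ :=
  (X 1 ^ 2 - ff (X 0)) * (X 1 ^ 2 - 2 * ff (X 0))

/-- the polynomial for the edges -/
noncomputable def RR : MvPolynomial (Fin 3) ℚ :=
  (X 2 ^ 2 - (X 0 + X 1)) * (X 2 ^ 2 - (X 0 + 2 * X 1)) * (X 2 ^ 2 - (ff (X 0) + X 0 - X 1))

/-- the polynomial for the non-edges -/
noncomputable def QQ : MvPolynomial (Fin 3) ℚ :=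
  (X 2 ^ 2 - (X 0 + X 1 + 1)) * (X 2 ^ 2 - (2 * X 0 + X 1)) *
    (X 2 ^ 2 - (2 * ff (X 0) + X 0 - X 1))

section eval

variable {K : Type} [Field K] [Algebra ℚ K]

theorem aeval_ff {n : ℕ} (f : Fin n → K) (i : Fin n) :
    aeval f (ff (X i : MvPolynomial (Fin n) ℚ)) = ff (f i) := by
  have h := map_ff (aeval f : MvPolynomial (Fin n) ℚ →ₐ[ℚ] K).toRingHom (X i)
  simpa using h

theorem PP_iff (a b : K) : aeval ![a, b] PP = 0 ↔ b ^ 2 = ff a ∨ b ^ 2 = 2 * ff a := by
  rw [PP, map_mul, map_sub, map_sub, map_mul, map_pow, aeval_ff, aeval_X, map_ofNat, mul_eq_zero,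
    sub_eq_zero, sub_eq_zero]
  rfl

theorem RR_iff (a b c : K) : aeval ![a, b, c] RR = 0 ↔
    c ^ 2 = a + b ∨ c ^ 2 = a + 2 * b ∨ c ^ 2 = ff a + a - b := by
  rw [RR]
  simp only [map_mul, map_sub, map_add, map_pow, aeval_ff, aeval_X, map_ofNat, mul_eq_zero,
    sub_eq_zero]
  rw [or_assoc]
  rfl

theorem QQ_iff (a b c : K) : aeval ![a, b, c] QQ = 0 ↔
    c ^ 2 = a + b + 1 ∨ c ^ 2 = 2 * a + b ∨ c ^ 2 = 2 * ff a + a - b := by
  rw [QQ]
  simp only [map_mul, map_sub, map_add, map_pow, aeval_ff, aeval_X, map_ofNat, mul_eq_zero,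
    sub_eq_zero, map_one]
  rw [or_assoc]
  rfl

end eval

section graph

variable {V : Type} (E : V → V → Prop)

/-- the field of the graph -/
abbrev Kf : Type := ↥(KK (gen E))

/-- the embedding of the field of the graph in the algebraic closure -/
noncomputable def em : Kf E →+* Om V := algebraMap (Kf E) (Om V)

theorem em_inj : Function.Injective (em E) := (em E).injective

theorem em_mem (x : Kf E) : em E x ∈ KK (gen E) := x.2

/-- the element of a vertex -/
noncomputable def al (v : V) : Kf E := ⟨ι (X v), by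
  rw [← k_j]
  exact (KK (gen E)).algebraMap_mem _⟩

theorem em_al (v : V) : em E (al E v) = ι (X v) := rfl

theorem al_inj : Function.Injective (al E) := by
  intro v w h
  have h1 : ι (X v : A V) = ι (X w) := congrArg (em E) h
  exact X_injective (ι_inj h1)

/-- the square root of a radicand -/
noncomputable def rt (i : Sym2 V) : Kf E := ⟨r (gen E) i, sqrt_mem _ _⟩

theorem em_rt (i : Sym2 V) : em E (rt E i) ^ 2 = ι (gen E i) := r_sq _ _

theorem ι_two : ι (C 2 : A V) = 2 := map_ofNat ((ι (V := V)).comp C) 2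

theorem ι_ff (v : V) : ι (ff (X v) : A V) = ff (ι (X v)) := map_ff ι _

/-- squares in the field of the graph -/
theorem sq_iff (x : Kf E) (m : A V) (h : em E x = ι m) (c : Kf E) :
    c ^ 2 = x ↔ em E c ^ 2 = ι m := by
  rw [← h, ← map_pow]
  exact (em_inj E).eq_iff.symm

theorem em_lin (a b c : ℚ) (v w : V) :
    ι (lin a b c v w) = (a : Om V) * ι (X v) + (b : Om V) * ι (X w) + (c : Om V) := by
  have hx : ∀ c : ℚ, ι (C c : A V) = (c : Om V) := fun c => by
    have h1 : ι (C c : A V) = algebraMap ℚ (Om V) c :=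
      (IsScalarTower.algebraMap_apply ℚ (A V) (Om V) c).symm
    rw [h1, eq_ratCast]
  rw [lin, map_add, map_add, map_mul, map_mul, hx, hx, hx]

theorem range_al : Set.range (al E) = SP (Kf E) PP := by
  classical
  ext a
  simp only [Set.mem_range, SP, Set.mem_ofPred_eq, PP_iff]
  constructor
  · rintro ⟨v, rfl⟩
    refine ⟨rt E s(v, v), ?_⟩
    by_cases h : E v v
    · left
      rw [sq_iff E _ (ff (X v)) (by rw [map_ff, em_al, map_ff]), em_rt, gen_diag_pos E h]
    · right
      rw [sq_iff E _ (C 2 * ff (X v)) (by rw [map_mul, map_ff, em_al, map_mul, map_ff, ι_two,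
        map_ofNat]), em_rt, gen_diag_neg E h]
  · rintro ⟨b, hb⟩
    have h1 : ∃ e : ℚ, 0 < e ∧ (em E b) ^ 2 = algebraMap ℚ (Om V) e * ff (em E a) := by
      rcases hb with h | h
      · refine ⟨1, one_pos, ?_⟩
        rw [map_one, one_mul, ← map_ff, ← h, map_pow]
      · refine ⟨2, two_pos, ?_⟩
        rw [← map_pow, h, map_mul, map_ff, map_ofNat, map_ofNat]
    obtain ⟨e, he, h2⟩ := h1
    obtain ⟨v, hv⟩ := points (gen_GD E) (gen_vertex E) (em_mem E a) (em_mem E b) he h2
    exact ⟨v, em_inj E hv.symm⟩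

/-- for two distinct vertices -/
theorem off_iff {v w : V} (hvw : v ≠ w) :
    (E v w ↔ ∃ c, aeval ![al E v, al E w, c] RR = 0) ∧
    (¬ E v w ↔ ∃ c, aeval ![al E v, al E w, c] QQ = 0) := by
  classical
  have hG := gen_GD E
  simp only [RR_iff, QQ_iff]
  have s1 := sq_iff E (al E v + al E w) (lin 1 1 0 v w)
    (by rw [map_add, em_al, em_al, em_lin]; push_cast; ring)
  have s2 := sq_iff E (al E v + 2 * al E w) (lin 1 2 0 v w)
    (by rw [map_add, map_mul, em_al, em_al, em_lin, map_ofNat]; push_cast; ring)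
  have s3 := sq_iff E (ff (al E v) + al E v - al E w) (C 1 * ff (X v) + X v - X w)
    (by rw [map_sub, map_add, map_ff, em_al, em_al, map_sub, map_add, map_mul, map_one, map_one,
      one_mul, ι_ff])
  have s4 := sq_iff E (al E v + al E w + 1) (lin 1 1 1 v w)
    (by rw [map_add, map_add, em_al, em_al, em_lin, map_one]; push_cast; ring)
  have s5 := sq_iff E (2 * al E v + al E w) (lin 2 1 0 v w)
    (by rw [map_add, map_mul, em_al, em_al, em_lin, map_ofNat]; push_cast; ring)
  have s6 := sq_iff E (2 * ff (al E v) + al E v - al E w) (C 2 * ff (X v) + X v - X w)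
    (by rw [map_sub, map_add, map_mul, map_ff, em_al, em_al, map_sub, map_add, map_mul, ι_two,
      map_ofNat, ι_ff])
  simp only [s1, s2, s3, s4, s5, s6]
  -- the forward directions
  have f1 : E v w → ∃ c, em E c ^ 2 = ι (lin 1 1 0 v w) ∨ em E c ^ 2 = ι (lin 1 2 0 v w) ∨
      em E c ^ 2 = ι (C 1 * ff (X v) + X v - X w) := by
    intro h
    refine ⟨rt E s(v, w), ?_⟩
    rw [em_rt]
    by_cases h' : E w v
    · exact Or.inl (by rw [gen_tt E hvw h h'])
    · exact Or.inr (Or.inl (by rw [gen_tf E hvw h h']))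
  have f2 : ¬ E v w → ∃ c, em E c ^ 2 = ι (lin 1 1 1 v w) ∨ em E c ^ 2 = ι (lin 2 1 0 v w) ∨
      em E c ^ 2 = ι (C 2 * ff (X v) + X v - X w) := by
    intro h
    refine ⟨rt E s(v, w), ?_⟩
    rw [em_rt]
    by_cases h' : E w v
    · exact Or.inr (Or.inl (by rw [gen_ft E hvw h h']))
    · exact Or.inl (by rw [gen_ff E hvw h h'])
  refine ⟨⟨f1, ?_⟩, ⟨f2, ?_⟩⟩
  · rintro ⟨c, hc⟩
    by_contra h
    rcases hc with hc | hc | hc
    · by_cases h' : E w v
      · exact nonsq_lin hG hvw (by norm_num) (by norm_num) (gen_ft E hvw h h') (by norm_num)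
          (em_mem E c) hc
      · exact nonsq_lin hG hvw (by norm_num) (by norm_num) (gen_ff E hvw h h') (by norm_num)
          (em_mem E c) hc
    · by_cases h' : E w v
      · exact nonsq_lin hG hvw (by norm_num) (by norm_num) (gen_ft E hvw h h') (by norm_num)
          (em_mem E c) hc
      · exact nonsq_lin hG hvw (by norm_num) (by norm_num) (gen_ff E hvw h h') (by norm_num)
          (em_mem E c) hc
    · exact nonsq_ff hG hvw one_pos (em_mem E c) hc
  · rintro ⟨c, hc⟩ h
    rcases hc with hc | hc | hc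
    · by_cases h' : E w v
      · exact nonsq_lin hG hvw (by norm_num) (by norm_num) (gen_tt E hvw h h') (by norm_num)
          (em_mem E c) hc
      · exact nonsq_lin hG hvw (by norm_num) (by norm_num) (gen_tf E hvw h h') (by norm_num)
          (em_mem E c) hc
    · by_cases h' : E w v
      · exact nonsq_lin hG hvw (by norm_num) (by norm_num) (gen_tt E hvw h h') (by norm_num)
          (em_mem E c) hc
      · exact nonsq_lin hG hvw (by norm_num) (by norm_num) (gen_tf E hvw h h') (by norm_num)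
          (em_mem E c) hc
    · exact nonsq_ff hG hvw two_pos (em_mem E c) hc

/-- the loops -/
theorem diag_iff (v : V) :
    (E v v ↔ ∃ c, aeval ![al E v, al E v, c] RR = 0) ∧
    (¬ E v v ↔ ∃ c, aeval ![al E v, al E v, c] QQ = 0) := by
  classical
  have hG := gen_GD E
  have hV := gen_vertex E
  simp only [RR_iff, QQ_iff]
  have hC : ∀ (n : ℕ) [n.AtLeastTwo], ι (C (OfNat.ofNat n) : A V) = OfNat.ofNat n :=
    fun n _ => map_ofNat ((ι (V := V)).comp C) n
  have s1 := sq_iff E (al E v + al E v) (C 2 * X v + C 0)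
    (by rw [map_add, em_al, map_add, map_mul, hC, map_zero, map_zero]; ring)
  have s2 := sq_iff E (al E v + 2 * al E v) (C 3 * X v + C 0)
    (by rw [map_add, map_mul, map_ofNat, em_al, map_add, map_mul, hC, map_zero, map_zero]; ring)
  have s3 := sq_iff E (ff (al E v) + al E v - al E v) (ff (X v))
    (by rw [add_sub_cancel_right, map_ff, em_al, ι_ff])
  have s4 := sq_iff E (al E v + al E v + 1) (C 2 * X v + C 1)
    (by rw [map_add, map_add, map_one, em_al, map_add, map_mul, hC, map_one, map_one]; ring)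
  have s5 := sq_iff E (2 * al E v + al E v) (C 3 * X v + C 0)
    (by rw [map_add, map_mul, map_ofNat, em_al, map_add, map_mul, hC, map_zero, map_zero]; ring)
  have s6 := sq_iff E (2 * ff (al E v) + al E v - al E v) (C 2 * ff (X v))
    (by rw [add_sub_cancel_right, map_mul, map_ff, em_al, map_ofNat, map_mul, ι_ff, hC])
  simp only [s1, s2, s3, s4, s5, s6]
  -- not both of `f` and `2 f` are squares
  have hnot : ∀ c c' : Kf E, em E c ^ 2 = ι (ff (X v)) → em E c' ^ 2 = ι (C 2 * ff (X v)) →
      False := by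
    intro c c' h h'
    have h0 : em E c ≠ 0 := by
      intro h0
      rw [h0, zero_pow two_ne_zero] at h
      exact ι_ne (ff_ne v) h.symm
    refine no_sqrt_two hG.toGood (s := em E (c' / c)) (em_mem E _) ?_
    rw [map_div₀, div_pow, h', h, map_mul, hC]
    have h1 := ι_ne (ff_ne v)
    field_simp
  have hself : em E (rt E s(v, v)) ^ 2 = ι (gen E s(v, v)) := em_rt E _
  refine ⟨⟨fun h => ⟨rt E s(v, v), Or.inr (Or.inr ?_)⟩, ?_⟩,
    ⟨fun h => ⟨rt E s(v, v), Or.inr (Or.inr ?_)⟩, ?_⟩⟩
  · rw [hself, gen_diag_pos E h]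
  · rintro ⟨c, hc⟩
    by_contra h
    rcases hc with hc | hc | hc
    · exact nonsq_one hG hV v (by norm_num) (em_mem E c) hc
    · exact nonsq_one hG hV v (by norm_num) (em_mem E c) hc
    · exact hnot c _ hc (by rw [hself, gen_diag_neg E h])
  · rw [hself, gen_diag_neg E h]
  · rintro ⟨c, hc⟩ h
    rcases hc with hc | hc | hc
    · exact nonsq_one hG hV v (by norm_num) (em_mem E c) hc
    · exact nonsq_one hG hV v (by norm_num) (em_mem E c) hc
    · exact hnot _ c (by rw [hself, gen_diag_pos E h]) hc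

end graph

/-- **Every graph has an existential coding.** There are polynomials `P ∈ ℚ[x, t]` and
`Q, R ∈ ℚ[x, y, z]` such that for every set `V` and every `E ⊆ V × V` there are a field `K` of
characteristic zero and a bijection `α` from `V` onto `S_P(K)` such that `(v, w) ∈ E` if and only
if `R(α(v), α(w), c) = 0` for some `c ∈ K`, and `(v, w) ∉ E` if and only if
`Q(α(v), α(w), c) = 0` for some `c ∈ K`. -/
theorem result : ∃ (P : MvPolynomial (Fin 2) ℚ) (Q R : MvPolynomial (Fin 3) ℚ),
    ∀ (V : Type) (E : V → V → Prop),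
    ∃ (K : Type) (_ : Field K) (_ : CharZero K) (α : V → SP K P), Function.Bijective α ∧
      (∀ v w : V, E v w ↔ ∃ c : K, aeval ![(α v : K), (α w : K), c] R = 0) ∧
      (∀ v w : V, ¬ E v w ↔ ∃ c : K, aeval ![(α v : K), (α w : K), c] Q = 0) := by
  refine ⟨PP, QQ, RR, fun V E => ⟨Kf E, inferInstance, inferInstance,
    fun v => ⟨al E v, by rw [← range_al]; exact ⟨v, rfl⟩⟩, ⟨?_, ?_⟩, ?_, ?_⟩⟩
  · intro v w h
    exact al_inj E (congrArg Subtype.val h)
  · rintro ⟨a, ha⟩
    have ha' := ha
    rw [← range_al] at ha'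
    obtain ⟨v, hv⟩ := ha'
    exact ⟨v, Subtype.ext hv⟩
  · intro v w
    by_cases h : v = w
    · subst h
      exact (diag_iff E v).1
    · exact (off_iff E h).1
  · intro v w
    by_cases h : v = w
    · subst h
      exact (diag_iff E v).2
    · exact (off_iff E h).2

end Pool.Agent.Results.MP_7de982_lc.GraphCoding
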